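import Pool.Agent.Helper18.SF.Res

set_option autoImplicit false

/-! An upper bound for 3-graphs without four edges on seven vertices. -/

namespace Pool.Agent.Results.MP_87578a_co.EighteenthBound

/-- For every `ε > 0` and all large `n`, every 3-graph on `n` vertices in which every 7-vertex set
contains fewer than four edges has at most `(1 / 18 + ε) n ^ 2` edges. -/
theorem result :
    ∀ ε : ℝ, ε > 0 → ∃ N : ℕ, ∀ n : ℕ, N ≤ n →
      ∀ H : Finset (Finset (Fin n)),
        (∀ e ∈ H, e.card = 3) →
        (∀ S : Finset (Fin n), S.card = 7 → (H.filter (fun e => e ⊆ S)).card < 4) →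
        (H.card : ℝ) ≤ (1 / 18 + ε) * (n : ℝ) ^ 2 :=
  fun ε hε => Pool.Agent.Helper18.SF.bound ε hε

end Pool.Agent.Results.MP_87578a_co.EighteenthBound
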