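import Pool.Agent.Helper18.HD.Quasi

set_option autoImplicit false

/-! Stability of the bound 1/18 for 3-graphs without four edges on seven vertices: near-extremal
3-graphs are nearly 3-partite and the shadow is quasirandom of density 1/2 between the parts. -/

namespace Pool.Agent.Results.MP_87578a_co.StabilityQuasirandom

/-- For every `ε > 0` there are `δ > 0` and `N` such that for `n ≥ N` every 3-graph on `n` vertices
in which every 7-vertex set contains fewer than four edges and which has at least
(1 / 18 - δ) n ^ 2 edges has a partition of its vertices into three parts of sizes between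
(1 / 3 - ε) n and (1 / 3 + ε) n such that all but at most `ε n ^ 2` edges meet all three parts and
such that for all sets `U`, `W` of vertices the number of pairs of `U × W` lying in a common edge is
half the number of pairs of `U × W` in different parts, up to `ε n ^ 2`. -/
theorem result :
    ∀ ε : ℝ, 0 < ε → ∃ δ : ℝ, 0 < δ ∧ ∃ N : ℕ, ∀ n : ℕ, N ≤ n →
      ∀ H : Finset (Finset (Fin n)),
        (∀ e ∈ H, e.card = 3) →
        (∀ S : Finset (Fin n), S.card = 7 → (H.filter (fun e => e ⊆ S)).card < 4) →
        (1 / 18 - δ) * (n : ℝ) ^ 2 ≤ (H.card : ℝ) →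
        ∃ part : Fin n → Fin 3,
          (∀ i : Fin 3,
            |((Finset.univ.filter (fun x => part x = i)).card : ℝ) - (n : ℝ) / 3| ≤ ε * n) ∧
          ((H.filter (fun e => ¬ ∀ i : Fin 3, ∃ x ∈ e, part x = i)).card : ℝ) ≤
            ε * (n : ℝ) ^ 2 ∧
          ∀ U W : Finset (Fin n),
            |(((U ×ˢ W).filter (fun q => q.1 ≠ q.2 ∧ ∃ e ∈ H, q.1 ∈ e ∧ q.2 ∈ e)).card : ℝ) -
              (1 / 2) * (((U ×ˢ W).filter (fun q => part q.1 ≠ part q.2)).card : ℝ)| ≤
              ε * (n : ℝ) ^ 2 := by
  intro ε hε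
  obtain ⟨δ, hδ, N, h⟩ := Pool.Agent.Helper18.HD.stab_quasi ε hε
  refine ⟨δ, hδ, N, fun n hn H h3 h7 hc => ?_⟩
  obtain ⟨part, hp1, hp2, hp3⟩ := h n hn H h3 h7 hc
  refine ⟨part, hp1, ?_, hp3⟩
  have e1 : (H.filter (fun e => ¬ ∀ i : Fin 3, ∃ x ∈ e, part x = i)) =
      (H.filter (fun e => e.image part ≠ Finset.univ)) := by
    refine Finset.filter_congr (fun e _ => ?_)
    rw [not_iff_not, Finset.eq_univ_iff_forall]
    simp only [Finset.mem_image]
  rw [e1]
  exact hp2

end Pool.Agent.Results.MP_87578a_co.StabilityQuasirandom
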