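import Pool.Agent.Helper29.TC.Fin3

set_option autoImplicit false

/-! Three colours: monochromatic four edges on at most seven vertices. -/

namespace Pool.Agent.Results.MP_87578a_co.ThreeColours

/-- There are `δ > 0` and `N` such that for every linear 3-graph `H` on `n ≥ N` vertices with at
least (1 / 6 - δ) n ^ 2 edges and every colouring of its edges by three colours there are four
edges of one colour whose union has at most seven vertices. -/
theorem result :
    ∃ δ : ℝ, 0 < δ ∧ ∃ N : ℕ, ∀ n : ℕ, N ≤ n → ∀ H : Finset (Finset (Fin n)),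
      (∀ e ∈ H, e.card = 3) →
      (∀ e ∈ H, ∀ e' ∈ H, e ≠ e' → (e ∩ e').card ≤ 1) →
      (1 / 6 - δ) * (n : ℝ) ^ 2 ≤ (H.card : ℝ) →
      ∀ χ : Finset (Fin n) → Fin 3,
        ∃ F ⊆ H, F.card = 4 ∧ (∀ e ∈ F, ∀ e' ∈ F, χ e = χ e') ∧ (F.biUnion id).card ≤ 7 := by
  obtain ⟨δ, hδ, N, h⟩ := Pool.Agent.Helper29.TC.three_colours
  refine ⟨δ, hδ, N, fun n hn H h3 hl hc χ => ?_⟩
  have hcard : Fintype.card (Fin n) = n := Fintype.card_fin n
  exact h (Fin n) (by rw [hcard]; exact hn) H h3 hl (by rw [hcard]; exact hc) χ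

end Pool.Agent.Results.MP_87578a_co.ThreeColours
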