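import Pool.Agent.Helper18.UN.Univ

set_option autoImplicit false

/-! In the shadow of a dense 3-graph without four edges on seven vertices every 3-colourable graph
occurs with positive density as an induced subgraph. -/

namespace Pool.Agent.Results.MP_87578a_co.UniversalShadow

open Finset

/-- For every `ε > 0` and `k` there are `c > 0` and `N` such that the following holds for `n ≥ N`.
Let `H` be a 3-graph on `n` vertices with at least `ε n ^ 2` edges in which every 7-vertex set
contains fewer than four edges, and let `F` be a 3-colourable graph on `k` vertices. There are at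
least `c n ^ k` injective maps `φ` from the vertices of `F` to those of `H` such that for `i ≠ j`
the vertices `φ i`, `φ j` lie in a common edge of `H` if and only if `i`, `j` are adjacent in
`F`. -/
theorem result : ∀ ε : ℝ, ε > 0 → ∀ k : ℕ, ∃ c : ℝ, c > 0 ∧ ∃ N : ℕ, ∀ n : ℕ, N ≤ n →
    ∀ H : Finset (Finset (Fin n)),
      (∀ e ∈ H, e.card = 3) →
      (∀ S : Finset (Fin n), S.card = 7 → (H.filter (fun e => e ⊆ S)).card < 4) →
      ε * (n : ℝ) ^ 2 ≤ (H.card : ℝ) →
      ∀ F : SimpleGraph (Fin k), F.Colorable 3 →
        c * (n : ℝ) ^ k ≤ (Nat.card {φ : Fin k → Fin n // Function.Injective φ ∧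
          ∀ i j, i ≠ j → (F.Adj i j ↔ ∃ e ∈ H, φ i ∈ e ∧ φ j ∈ e)} : ℝ) :=
  fun ε hε k => Pool.Agent.Helper18.UN.universal ε hε k

end Pool.Agent.Results.MP_87578a_co.UniversalShadow
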